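import Pool.Agent.X119.CC.Stm

/-!
# CC_CYC : recursion of the logarithmic derivative of cyclotomic polynomials
-/

namespace Pool.Agent.X41.CC

open Polynomial Pool.Agent.X119.CC

/-- `Φ_n` has no zero in `(-1, 1)`. -/
theorem cyc_ne {n : ℕ} (hn : 0 < n) {x : ℝ} (hx : |x| < 1) : (cyclotomic n ℝ).eval x ≠ 0 := by
  intro h
  have hd : (X ^ n - 1 : ℝ[X]).eval x = 0 := by
    obtain ⟨q, hq⟩ := cyclotomic.dvd_X_pow_sub_one n ℝ
    rw [hq, eval_mul, h, zero_mul]
  have h1 : x ^ n = 1 := by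
    simpa [sub_eq_zero] using hd
  have h2 : |x| ^ n = 1 := by rw [← abs_pow, h1, abs_one]
  have h3 : |x| ^ n < 1 := pow_lt_one₀ (abs_nonneg x) hx hn.ne'
  linarith

theorem step {m p : ℕ} (hm : 0 < m) (hp : p.Prime) (hodd : Odd p) (hdiv : ¬ p ∣ m)
    {σ : ℝ} (hσ : σ = 1 ∨ σ = -1) (u : ℝ) :
    gg (m * p) σ u = gg m σ (u + Real.log p) - gg m σ u := by
  have hp0 : (0 : ℝ) < p := by exact_mod_cast hp.pos
  have hE : Real.exp (u + Real.log p) = p * Real.exp u := by
    rw [Real.exp_add, Real.exp_log hp0, mul_comm]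
  have hσp : σ ^ p = σ := by
    rcases hσ with rfl | rfl
    · simp
    · exact hodd.neg_one_pow
  have hσa : |σ| = 1 := by
    rcases hσ with rfl | rfl <;> simp
  set t := Real.exp u with ht
  have ht0 : 0 < t := Real.exp_pos u
  set x := σ * Real.exp (-t) with hx
  have hxp : x ^ p = σ * Real.exp (-(p * t)) := by
    rw [hx, mul_pow, hσp, ← Real.exp_nat_mul]
    congr 2; ring
  have hxa : |x| < 1 := by
    rw [hx, abs_mul, hσa, one_mul, abs_of_pos (Real.exp_pos _)]
    rw [Real.exp_lt_one_iff]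
    linarith
  have hxpa : |x ^ p| < 1 := by
    rw [abs_pow]; exact pow_lt_one₀ (abs_nonneg x) hxa hp.pos.ne'
  have hE1 := cyclotomic_expand_eq_cyclotomic_mul hp hdiv ℝ
  have hA := congrArg (fun q : ℝ[X] => q.eval x) hE1
  have hB := congrArg (fun q : ℝ[X] => (derivative q).eval x) hE1
  simp only [expand_eval, eval_mul, derivative_expand, derivative_mul, eval_add, eval_pow,
    eval_X, eval_natCast, eval_mul] at hA hB
  have n1 : (cyclotomic m ℝ).eval x ≠ 0 := cyc_ne hm hxa
  have n2 : (cyclotomic (m * p) ℝ).eval x ≠ 0 := cyc_ne (Nat.mul_pos hm hp.pos) hxa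
  have n3 : (cyclotomic m ℝ).eval (x ^ p) ≠ 0 := cyc_ne hm hxpa
  unfold gg
  rw [hE, ← hxp, ← hx]
  have hpx : x ^ p = x * x ^ (p - 1) := by
    rw [← pow_succ', Nat.sub_add_cancel hp.pos]
  rw [← ht]
  generalize eval (x ^ p) (derivative (cyclotomic m ℝ)) = C' at *
  generalize eval (x ^ p) (cyclotomic m ℝ) = C at *
  generalize eval x (derivative (cyclotomic (m * p) ℝ)) = B' at *
  generalize eval x (cyclotomic (m * p) ℝ) = B at *
  generalize eval x (derivative (cyclotomic m ℝ)) = A' at *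
  generalize eval x (cyclotomic m ℝ) = A at *
  have hC : (p : ℝ) * t * x ^ p * (C' / C) = t * x * (C' * (p * x ^ (p - 1)) / C) := by
    rw [hpx]; ring
  rw [hC, hB, hA]
  field_simp
  ring

theorem t : S_CYC := by
  intro σ hσ m hm l
  induction l with
  | nil =>
    intro _ _
    simp [dif]
  | cons p l ih =>
    intro h1 h2
    have hp := h1 p (by simp)
    have hl : ∀ q ∈ l, q.Prime ∧ Odd q ∧ ¬ q ∣ m := fun q hq => h1 q (by simp [hq])
    have hnd : l.Nodup := (List.nodup_cons.1 h2).2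
    have hpl : p ∉ l := (List.nodup_cons.1 h2).1
    have hI := ih hl hnd
    have hlp : 0 < l.prod := by
      apply Nat.pos_of_ne_zero
      intro h0
      have := List.prod_eq_zero_iff.1 h0
      exact (hl 0 this).1.ne_zero rfl
    have hdiv : ¬ p ∣ l.prod * m := by
      intro h
      rcases (hp.1.dvd_mul).1 h with h | h
      · rw [Prime.dvd_prod_iff hp.1.prime] at h
        obtain ⟨q, hq, hpq⟩ := h
        have := (Nat.prime_dvd_prime_iff_eq hp.1 (hl q hq).1).1 hpq
        exact hpl (this ▸ hq)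
      · exact hp.2.2 h
    funext u
    have hs := step (Nat.mul_pos hlp hm) hp.1 hp.2.1 hdiv hσ u
    rw [List.map_cons]
    show _ = dif (l.map _) (gg m σ) (u + Real.log p) - dif (l.map _) (gg m σ) u
    rw [← hI, ← hs]
    congr 1
    rw [List.prod_cons]; ring

end Pool.Agent.X41.CC
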